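import Mathlib
import Pool.Agent.Erdos456.Iface

set_option autoImplicit false

namespace Pool.Agent.X29.UT

open Finset Pool.Agent.Erdos456

/-- the number of prime factors -/
theorem omega_le {n : ℕ} (hn : 1 ≤ n) : (n.primeFactors.card : ℝ) * Real.log 2 ≤ Real.log n := by
  have h1 : 2 ^ n.primeFactors.card ≤ n := by
    calc 2 ^ n.primeFactors.card ≤ ∏ p ∈ n.primeFactors, p :=
          Finset.pow_card_le_prod _ _ _ fun p hp => (Nat.prime_of_mem_primeFactors hp).two_le
      _ ≤ n := Nat.le_of_dvd hn (Nat.prod_primeFactors_dvd n)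
  have h2 : ((2 ^ n.primeFactors.card : ℕ) : ℝ) ≤ n := by exact_mod_cast h1
  have h3 := Real.log_le_log (by positivity) h2
  push_cast at h3
  rwa [Real.log_pow] at h3

theorem sum_tele (N : ℕ) : ∑ m ∈ Icc 2 (N + 1), 1 / ((m : ℝ) * (m - 1)) ≤ 1 := by
  have h : ∀ N : ℕ, ∑ m ∈ Icc 2 (N + 1), 1 / ((m : ℝ) * (m - 1)) = 1 - 1 / ((N : ℝ) + 1) := by
    intro N
    induction N with
    | zero => simp
    | succ N ih =>
      rw [Finset.sum_Icc_succ_top (by omega), ih]
      push_cast
      field_simp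
      ring
  rw [h]
  have : 0 ≤ 1 / ((N : ℝ) + 1) := by positivity
  linarith

theorem sum_sq_le (S : Finset ℕ) (hS : ∀ p ∈ S, 2 ≤ p) : ∑ p ∈ S, 1 / ((p : ℝ) * (p - 1)) ≤ 1 := by
  refine le_trans ?_ (sum_tele (S.sup id))
  apply Finset.sum_le_sum_of_subset_of_nonneg
  · intro p hp
    rw [Finset.mem_Icc]
    exact ⟨hS p hp, (Finset.le_sup (f := id) hp).trans (Nat.le_succ _)⟩
  · intro p hp _
    rw [Finset.mem_Icc] at hp
    have : (2 : ℝ) ≤ p := by exact_mod_cast hp.1
    have h1 : (0 : ℝ) < p - 1 := by linarith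
    positivity

/-- `n / φ(n) ≤ C log log x` for `n ≤ x` -/
theorem tot_bound : ∃ C : ℝ, 1 ≤ C ∧ ∀ x : ℝ, 16 ≤ x → ∀ n : ℕ, 1 ≤ n → (n : ℝ) ≤ x →
    (n : ℝ) / n.totient ≤ C * Real.log (Real.log x) := by
  obtain ⟨C, hC, hM⟩ := mertens_upper
  refine ⟨4 * Real.exp (C + 3), ?_, fun x hx n hn hnx => ?_⟩
  · have := Real.add_one_le_exp (C + 3)
    linarith
  have hlog : (2.7 : ℝ) ≤ Real.log x := by
    have h1 : Real.log 16 ≤ Real.log x := Real.log_le_log (by norm_num) hx
    have h2 : Real.log 16 = 4 * Real.log 2 := by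
      rw [show (16 : ℝ) = 2 ^ 4 by norm_num, Real.log_pow]; norm_num
    have := Real.log_two_gt_d9
    linarith
  obtain ⟨y, hy⟩ : ∃ y, y = Real.log x := ⟨_, rfl⟩
  rw [← hy] at hlog ⊢
  have hy0 : 0 < y := by linarith
  have hly : (1 / 2 : ℝ) ≤ Real.log y := by
    have h1 : Real.log 2 ≤ Real.log y := Real.log_le_log (by norm_num) (by linarith)
    have := Real.log_two_gt_d9
    linarith
  obtain ⟨j, hj⟩ : ∃ j, j = ⌈2 * Real.log y⌉₊ := ⟨_, rfl⟩
  have hj1 : 2 * Real.log y ≤ j := by rw [hj]; exact Nat.le_ceil _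
  have hj2 : (j : ℝ) < 2 * Real.log y + 1 := by rw [hj]; exact Nat.ceil_lt_add_one (by linarith)
  have hj0 : (1 : ℝ) ≤ j := by linarith
  have hj3 : (j : ℝ) ≤ 4 * Real.log y := by linarith
  have hjy : y ≤ 2 ^ j := by
    have h1 : Real.log y ≤ Real.log ((2 : ℝ) ^ j) := by
      rw [Real.log_pow]
      have := Real.log_two_gt_d9
      nlinarith
    exact (Real.log_le_log_iff hy0 (by positivity)).1 h1
  have hj1' : 1 ≤ j := by exact_mod_cast hj0
  have hM' := hM j hj1'
  -- the product
  have hG : GG n ≤ Real.exp (∑ p ∈ n.primeFactors, (1 / (p : ℝ) + 1 / ((p : ℝ) * (p - 1)))) := by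
    rw [GG_eq_prod (by omega), Real.exp_sum]
    apply Finset.prod_le_prod
    · intro p hp
      exact zero_le_one.trans (factor_ge_one (Nat.prime_of_mem_primeFactors hp))
    · intro p hp
      have hp2 : (2 : ℝ) ≤ p := by exact_mod_cast (Nat.prime_of_mem_primeFactors hp).two_le
      have h1 : (0 : ℝ) < p - 1 := by linarith
      have h2 : (1 - (p : ℝ)⁻¹)⁻¹ = (1 / (p : ℝ) + 1 / ((p : ℝ) * (p - 1))) + 1 := by
        field_simp
        ring
      rw [h2]
      exact Real.add_one_le_exp _
  have hsum : ∑ p ∈ n.primeFactors, (1 / (p : ℝ) + 1 / ((p : ℝ) * (p - 1))) ≤ Real.log j + C + 3 := by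
    rw [Finset.sum_add_distrib]
    have h1 := sum_sq_le n.primeFactors fun p hp => (Nat.prime_of_mem_primeFactors hp).two_le
    have h2 : ∑ p ∈ n.primeFactors, 1 / (p : ℝ) ≤ Real.log j + C + 2 := by
      rw [← Finset.sum_filter_add_sum_filter_not n.primeFactors (fun p => p ≤ 2 ^ j)]
      have h3 : ∑ p ∈ n.primeFactors.filter (fun p => p ≤ 2 ^ j), 1 / (p : ℝ) ≤ Real.log j + C := by
        refine le_trans ?_ hM'
        calc ∑ p ∈ n.primeFactors.filter (fun p => p ≤ 2 ^ j), 1 / (p : ℝ)
            = ∑ p ∈ n.primeFactors.filter (fun p => p ≤ 2 ^ j), (p : ℝ)⁻¹ := by simp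
          _ ≤ _ := by
            apply Finset.sum_le_sum_of_subset_of_nonneg
            · intro p hp
              rw [Finset.mem_filter] at hp
              rw [Nat.mem_primesBelow]
              exact ⟨by omega, Nat.prime_of_mem_primeFactors hp.1⟩
            · intro p _ _
              positivity
      have h4 : ∑ p ∈ n.primeFactors.filter (fun p => ¬ p ≤ 2 ^ j), 1 / (p : ℝ) ≤ 2 := by
        calc ∑ p ∈ n.primeFactors.filter (fun p => ¬ p ≤ 2 ^ j), 1 / (p : ℝ)
            ≤ ∑ p ∈ n.primeFactors.filter (fun p => ¬ p ≤ 2 ^ j), 1 / y := by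
              apply Finset.sum_le_sum
              intro p hp
              rw [Finset.mem_filter, not_le] at hp
              have h5 : ((2 ^ j : ℕ) : ℝ) ≤ p := by exact_mod_cast hp.2.le
              push_cast at h5
              exact one_div_le_one_div_of_le hy0 (hjy.trans h5)
          _ ≤ n.primeFactors.card * (1 / y) := by
              rw [Finset.sum_const, nsmul_eq_mul]
              have h6 : ((n.primeFactors.filter (fun p => ¬ p ≤ 2 ^ j)).card : ℝ) ≤
                  n.primeFactors.card := by exact_mod_cast Finset.card_filter_le _ _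
              exact mul_le_mul_of_nonneg_right h6 (by positivity)
          _ ≤ 2 := by
              have h7 := omega_le hn
              have h8 : Real.log n ≤ y := by
                rw [hy]
                exact Real.log_le_log (by exact_mod_cast hn) hnx
              have h9 := Real.log_two_gt_d9
              have h10 : (0 : ℝ) ≤ n.primeFactors.card := by positivity
              rw [mul_one_div, div_le_iff₀ hy0]
              nlinarith
      linarith
    linarith
  have hfin : GG n ≤ j * Real.exp (C + 3) := by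
    refine hG.trans ((Real.exp_le_exp.2 hsum).trans_eq ?_)
    rw [add_assoc, Real.exp_add, Real.exp_log (by linarith)]
  have : (n : ℝ) / n.totient = GG n := rfl
  rw [this]
  refine hfin.trans ?_
  have h4 : 0 < Real.exp (C + 3) := Real.exp_pos _
  nlinarith [mul_le_mul_of_nonneg_right hj3 h4.le]

end Pool.Agent.X29.UT
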