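import Mathlib
import Pool.Agent.X29.UT.Tot

set_option autoImplicit false

namespace Pool.Agent.X29.UT

open Finset Filter

/-- every prime `p` has a residue class without elements of `S` -/
def Admissible (S : Finset ℕ) : Prop := ∀ p : ℕ, p.Prime → ∃ r : ℕ, ∀ a ∈ S, ¬ a ≡ r [MOD p]

/-- some `1 ≤ n ≤ x` makes all `n + a` prime -/
def Hit (x : ℝ) (S : Finset ℕ) : Prop := ∃ n : ℕ, 1 ≤ n ∧ (n : ℝ) ≤ x ∧ ∀ a ∈ S, (n + a).Prime

/-- the primes in `(k, H]` -/
def pool (k H : ℕ) : Finset ℕ := (Ioc k H).filter Nat.Prime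

theorem adm {k H : ℕ} {S : Finset ℕ} (hS : S ⊆ pool k H) (hc : S.card ≤ k) : Admissible S := by
  intro p hp
  by_cases hpk : p ≤ k
  · refine ⟨0, fun a ha h => ?_⟩
    have h1 := hS ha
    unfold pool at h1
    rw [mem_filter, mem_Ioc] at h1
    have h2 : p ∣ a := (Nat.modEq_zero_iff_dvd).1 h
    have h3 := (Nat.prime_dvd_prime_iff_eq hp h1.2).1 h2
    omega
  · by_contra hne
    push Not at hne
    have h1 : Finset.range p ⊆ S.image (fun a => a % p) := by
      intro r hr
      rw [Finset.mem_range] at hr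
      obtain ⟨a, ha, har⟩ := hne r
      rw [Finset.mem_image]
      refine ⟨a, ha, ?_⟩
      have : a % p = r % p := har
      rw [this, Nat.mod_eq_of_lt hr]
    have h2 := Finset.card_le_card h1
    rw [Finset.card_range] at h2
    have h3 := Finset.card_image_le (s := S) (f := fun a => a % p)
    omega

theorem choose_le {M A : ℕ} (h : M ≤ A) (k : ℕ) : M.choose k * A ^ k ≤ A.choose k * M ^ k := by
  induction k with
  | zero => simp
  | succ k ih =>
    have h1 : M.choose (k + 1) * (k + 1) = M.choose k * (M - k) := Nat.choose_succ_right_eq M k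
    have h2 : A.choose (k + 1) * (k + 1) = A.choose k * (A - k) := Nat.choose_succ_right_eq A k
    have h3 : (M - k) * A ≤ (A - k) * M := by
      rcases Nat.lt_or_ge M k with hk | hk
      · have : M - k = 0 := by omega
        rw [this]; simp
      · obtain ⟨m, rfl⟩ := Nat.exists_eq_add_of_le hk
        obtain ⟨a, rfl⟩ := Nat.exists_eq_add_of_le h
        rw [Nat.add_sub_cancel_left, show k + m + a - k = m + a by omega]
        nlinarith [Nat.zero_le (k * a)]
    have h4 : (M.choose (k + 1) * A ^ (k + 1)) * (k + 1) ≤ (A.choose (k + 1) * M ^ (k + 1)) * (k + 1) := by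
      calc (M.choose (k + 1) * A ^ (k + 1)) * (k + 1)
          = (M.choose (k + 1) * (k + 1)) * A ^ (k + 1) := by ring
        _ = (M.choose k * A ^ k) * ((M - k) * A) := by rw [h1]; ring
        _ ≤ (A.choose k * M ^ k) * ((A - k) * M) := Nat.mul_le_mul ih h3
        _ = (A.choose (k + 1) * (k + 1)) * M ^ (k + 1) := by rw [h2]; ring
        _ = _ := by ring
    exact Nat.le_of_mul_le_mul_right h4 (Nat.succ_pos k)

/-- the number of elements of the pool -/
theorem pool_lower : ∃ H₀ : ℕ, ∀ H k : ℕ, H₀ ≤ H → k ^ 2 ≤ H →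
    (H : ℝ) / (2 * Real.log H) ≤ (pool k H).card := by
  have e1 : ∀ᶠ t : ℝ in atTop, Real.log t ≤ 0.01 * t ^ (1 / 2 : ℝ) := by
    have := (isLittleO_log_rpow_atTop (r := 1 / 2) (by norm_num)).bound (c := 0.01) (by norm_num)
    filter_upwards [this, eventually_ge_atTop 1] with t ht h1
    rw [Real.norm_of_nonneg (Real.log_nonneg h1), Real.norm_of_nonneg (by positivity)] at ht
    exact ht
  obtain ⟨T, hT⟩ := eventually_atTop.1 (e1.and (eventually_ge_atTop 100))
  refine ⟨⌈max T 1⌉₊, fun H k hH hk => ?_⟩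
  have hHT : T ≤ (H : ℝ) := (le_max_left _ _).trans ((Nat.le_ceil _).trans (by exact_mod_cast hH))
  obtain ⟨h1, h100⟩ := hT H hHT
  rw [← Real.sqrt_eq_rpow] at h1
  have hH0 : (0 : ℝ) < H := by linarith
  have hk' : (k : ℝ) ≤ Real.sqrt H := by
    apply Real.le_sqrt_of_sq_le
    exact_mod_cast hk
  have hlog : 1 ≤ Real.log H := by
    rw [Real.le_log_iff_exp_le hH0]
    have := Real.exp_one_lt_d9
    linarith
  have h2 : (Nat.primeCounting H : ℝ) - k ≤ (pool k H).card := by
    have h3 : Nat.primeCounting H ≤ (pool k H).card + k := by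
      rw [← Nat.primesLE_card_eq_primeCounting]
      have h4 : Nat.primesLE H ⊆ pool k H ∪ Icc 1 k := by
        intro p hp
        have hp1 := Nat.prime_of_mem_primesLE hp
        have hp2 : p ≤ H := by
          rw [Nat.mem_primesLE] at hp
          exact hp.1
        unfold pool
        rw [mem_union, mem_filter, mem_Ioc, mem_Icc]
        rcases Nat.lt_or_ge k p with h | h
        · exact Or.inl ⟨⟨h, hp2⟩, hp1⟩
        · exact Or.inr ⟨hp1.one_lt.le, h⟩
      have h5 := (Finset.card_le_card h4).trans (Finset.card_union_le _ _)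
      rw [Nat.card_Icc] at h5
      simpa using h5
    have : (Nat.primeCounting H : ℝ) ≤ (pool k H).card + k := by exact_mod_cast h3
    linarith
  have h6 := Chebyshev.pi_ge H
  have hs : Real.sqrt H * Real.sqrt H = H := Real.mul_self_sqrt hH0.le
  have hs10 : 10 ≤ Real.sqrt H := by
    apply Real.le_sqrt_of_sq_le; linarith
  have h7 : Real.log ((H : ℝ) + 1) ≤ 0.02 * Real.sqrt H := by
    have h8 : Real.log ((H : ℝ) + 1) ≤ Real.log ((H : ℝ) * 2) := Real.log_le_log (by positivity) (by linarith)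
    rw [Real.log_mul hH0.ne' (by norm_num)] at h8
    have := Real.log_two_lt_d9
    have h9 : Real.log 2 ≤ Real.log H := Real.log_le_log (by norm_num) (by linarith)
    linarith
  have h10 : (H : ℝ) / (2 * Real.log H) + k ≤ (H * Real.log 2 - Real.log (H + 1)) / Real.log H := by
    rw [le_div_iff₀ (by linarith)]
    have h11 : ((H : ℝ) / (2 * Real.log H) + k) * Real.log H = H / 2 + k * Real.log H := by
      field_simp
    rw [h11]
    have h12 : (k : ℝ) * Real.log H ≤ Real.sqrt H * (0.01 * Real.sqrt H) :=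
      mul_le_mul hk' h1 (by linarith) (Real.sqrt_nonneg _)
    have := Real.log_two_gt_d9
    nlinarith
  linarith

/-- the number of elements `a` of the pool with `n + a` prime -/
theorem pairs_upper : ∃ C : ℝ, 1 ≤ C ∧ ∀ x : ℝ, 16 ≤ x → ∀ n : ℕ, 1 ≤ n → (n : ℝ) ≤ x → ∀ H k : ℕ, 2 ≤ H →
    (((pool k H).filter fun a => (n + a).Prime).card : ℝ) ≤
      C * Real.log (Real.log x) ^ 2 * H / Real.log H ^ 2 := by
  obtain ⟨C₁, hC₁, h1⟩ := tot_bound
  obtain ⟨C₂, hC₂, h2⟩ := Pool.Agent.Erdos456.sieve_two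
  refine ⟨C₁ ^ 2 * (C₂ + 1), by nlinarith, fun x hx n hn hnx H k hH => ?_⟩
  have h3 := h2 1 0 1 n H one_pos one_pos (by simp) (by simp) (by omega) hH
  have hn' : 1 * 1 * (((1 * n : ℕ) : ℤ) - ((1 * 0 : ℕ) : ℤ)).natAbs = n := by simp
  rw [hn'] at h3
  have h4 := h1 x hx n hn hnx
  have hlog : 0 < Real.log (Real.log x) := by
    apply Real.log_pos
    rw [Real.lt_log_iff_exp_lt (by linarith)]
    have := Real.exp_one_lt_d9
    linarith
  have h5 : (((pool k H).filter fun a => (n + a).Prime).card : ℝ) ≤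
      (((Finset.Icc 1 H).filter (fun m => (1 * m + 0).Prime ∧ (1 * m + n).Prime)).card : ℝ) := by
    have : ((pool k H).filter fun a => (n + a).Prime) ⊆
        (Finset.Icc 1 H).filter (fun m => (1 * m + 0).Prime ∧ (1 * m + n).Prime) := by
      intro a ha
      unfold pool at ha
      rw [mem_filter, mem_filter, mem_Ioc] at ha
      rw [mem_filter, mem_Icc]
      refine ⟨⟨ha.1.2.one_lt.le, ha.1.1.2⟩, by simpa using ha.1.2, ?_⟩
      rw [one_mul, add_comm]; exact ha.2
    exact_mod_cast Finset.card_le_card this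
  refine h5.trans (h3.trans ?_)
  have h6 : 0 ≤ (n : ℝ) / n.totient := by positivity
  have h7 : ((n : ℝ) / n.totient) ^ 2 ≤ (C₁ * Real.log (Real.log x)) ^ 2 := pow_le_pow_left₀ h6 h4 2
  have h8 : 0 ≤ (H : ℝ) / Real.log H ^ 2 := by positivity
  calc C₂ * ((n : ℝ) / n.totient) ^ 2 * H / Real.log H ^ 2
      = (C₂ * ((n : ℝ) / n.totient) ^ 2) * (H / Real.log H ^ 2) := by ring
    _ ≤ ((C₂ + 1) * (C₁ * Real.log (Real.log x)) ^ 2) * (H / Real.log H ^ 2) := by
        apply mul_le_mul_of_nonneg_right _ h8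
        apply mul_le_mul _ h7 (by positivity) (by positivity)
        linarith
    _ = _ := by ring

open Classical in
/-- the union bound -/
theorem union {x ρ : ℝ} (hx : 0 ≤ x) (hρ : 0 ≤ ρ) {k : ℕ} {A : Finset ℕ}
    (h : ∀ n : ℕ, 1 ≤ n → (n : ℝ) ≤ x → ((A.filter fun a => (n + a).Prime).card : ℝ) ≤ ρ * A.card) :
    (((A.powersetCard k).filter (Hit x)).card : ℝ) ≤ x * ρ ^ k * (A.powersetCard k).card := by
  have h1 : (A.powersetCard k).filter (Hit x) ⊆
      (Icc 1 ⌊x⌋₊).biUnion fun n => (A.filter fun a => (n + a).Prime).powersetCard k := by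
    intro S hS
    rw [mem_filter, mem_powersetCard] at hS
    obtain ⟨⟨h1, h2⟩, n, hn1, hnx, hn⟩ := hS
    rw [mem_biUnion]
    refine ⟨n, ?_, ?_⟩
    · rw [mem_Icc]; exact ⟨hn1, Nat.le_floor hnx⟩
    · rw [mem_powersetCard]
      refine ⟨fun a ha => ?_, h2⟩
      rw [mem_filter]
      exact ⟨h1 ha, hn a ha⟩
  have h2 : (((A.powersetCard k).filter (Hit x)).card : ℝ) ≤
      ∑ n ∈ Icc 1 ⌊x⌋₊, (((A.filter fun a => (n + a).Prime).powersetCard k).card : ℝ) := by
    exact_mod_cast (Finset.card_le_card h1).trans Finset.card_biUnion_le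
  refine h2.trans ?_
  have h3 : ∀ n ∈ Icc 1 ⌊x⌋₊, (((A.filter fun a => (n + a).Prime).powersetCard k).card : ℝ) ≤
      ρ ^ k * (A.powersetCard k).card := by
    intro n hn
    rw [mem_Icc] at hn
    have hnx : (n : ℝ) ≤ x := (Nat.le_floor_iff hx).1 hn.2
    have h4 := h n hn.1 hnx
    rw [card_powersetCard, card_powersetCard]
    obtain ⟨M, hM⟩ : ∃ M, M = (A.filter fun a => (n + a).Prime).card := ⟨_, rfl⟩
    rw [← hM] at h4 ⊢
    have hMA : M ≤ A.card := by rw [hM]; exact Finset.card_filter_le _ _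
    have h5 := choose_le hMA k
    have h5' : (M.choose k : ℝ) * (A.card : ℝ) ^ k ≤ A.card.choose k * (M : ℝ) ^ k := by exact_mod_cast h5
    rcases Nat.eq_zero_or_pos A.card with hA | hA
    · have hM0 : M = 0 := by omega
      rw [hA, hM0]
      rcases Nat.eq_zero_or_pos k with hk | hk
      · subst hk; simp
      · rw [Nat.choose_eq_zero_of_lt hk]; simp
    · have hA' : (0 : ℝ) < A.card := by exact_mod_cast hA
      have h6 : (M : ℝ) ^ k ≤ (ρ * A.card) ^ k := pow_le_pow_left₀ (by positivity) h4 k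
      have h7 : (M.choose k : ℝ) * (A.card : ℝ) ^ k ≤ (ρ ^ k * A.card.choose k) * (A.card : ℝ) ^ k := by
        calc (M.choose k : ℝ) * (A.card : ℝ) ^ k ≤ A.card.choose k * (M : ℝ) ^ k := h5'
          _ ≤ A.card.choose k * (ρ * A.card) ^ k := mul_le_mul_of_nonneg_left h6 (by positivity)
          _ = _ := by rw [mul_pow]; ring
      exact le_of_mul_le_mul_right h7 (by positivity)
  refine (Finset.sum_le_sum h3).trans ?_
  rw [Finset.sum_const, nsmul_eq_mul, Nat.card_Icc, Nat.add_sub_cancel, mul_assoc]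
  apply mul_le_mul_of_nonneg_right (Nat.floor_le hx) (by positivity)

end Pool.Agent.X29.UT
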