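import Mathlib
import Pool.Agent.X29.UT.Main

set_option autoImplicit false

namespace Pool.Agent.X29.UT

open Finset Filter

theorem pool_ge : ∃ H₀ : ℕ, ∀ H k : ℕ, H₀ ≤ H → k ^ 2 ≤ H → k ≤ (pool k H).card := by
  obtain ⟨H₁, h1⟩ := pool_lower
  have e1 : ∀ᶠ t : ℝ in atTop, Real.log t ≤ 0.01 * t ^ (1 / 2 : ℝ) := by
    have := (isLittleO_log_rpow_atTop (r := 1 / 2) (by norm_num)).bound (c := 0.01) (by norm_num)
    filter_upwards [this, eventually_ge_atTop 1] with t ht h1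
    rw [Real.norm_of_nonneg (Real.log_nonneg h1), Real.norm_of_nonneg (by positivity)] at ht
    exact ht
  obtain ⟨T, hT⟩ := eventually_atTop.1 (e1.and (eventually_ge_atTop 100))
  refine ⟨max H₁ ⌈max T 1⌉₊, fun H k hH hk => ?_⟩
  have hHT : T ≤ (H : ℝ) := (le_max_left _ _).trans ((Nat.le_ceil _).trans
    (by exact_mod_cast (le_max_right _ _).trans hH))
  obtain ⟨h2, h100⟩ := hT H hHT
  rw [← Real.sqrt_eq_rpow] at h2
  have hH0 : (0 : ℝ) < H := by linarith
  have h3 := h1 H k ((le_max_left _ _).trans hH) hk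
  have hlog : 1 ≤ Real.log H := by
    rw [Real.le_log_iff_exp_le hH0]
    have := Real.exp_one_lt_d9
    linarith
  have hs : Real.sqrt H * Real.sqrt H = H := Real.mul_self_sqrt hH0.le
  have hk' : (k : ℝ) ≤ Real.sqrt H := by
    apply Real.le_sqrt_of_sq_le
    exact_mod_cast hk
  have h4 : Real.sqrt H ≤ (H : ℝ) / (2 * Real.log H) := by
    rw [le_div_iff₀ (by linarith)]
    have := Real.sqrt_nonneg (H : ℝ)
    nlinarith
  have : (k : ℝ) ≤ (pool k H).card := hk'.trans (h4.trans h3)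
  exact_mod_cast this

open Classical in
theorem main (ε : ℝ) (h0 : 0 < ε) (h1 : ε ≤ 1) : ∃ (B : ℕ) (x₀ : ℝ), ∀ x : ℝ, x₀ ≤ x → ∀ H k : ℕ,
    Real.exp (Real.log (Real.log x) ^ B) ≤ H → k ^ 2 ≤ H →
    (1 + ε) * Real.log x ≤ k * Real.log (Real.log H) →
    k ≤ (pool k H).card ∧ (((pool k H).powersetCard k).filter (Hit x)).card ≤
      x ^ (-(ε / 2)) * ((pool k H).powersetCard k).card := by
  obtain ⟨H₁, hP⟩ := pool_ge
  obtain ⟨H₂, hL⟩ := pool_lower
  obtain ⟨C, hC, hU⟩ := pairs_upper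
  obtain ⟨B, hB⟩ : ∃ B, B = ⌈16 / ε⌉₊ + 1 := ⟨_, rfl⟩
  have hBε : 16 / ε ≤ (B : ℝ) := by
    rw [hB]; push_cast
    have := Nat.le_ceil (16 / ε)
    linarith
  have hB1 : 1 ≤ B := by omega
  -- eventually
  have t1 : Tendsto (fun x : ℝ => Real.log (Real.log x)) atTop atTop :=
    Real.tendsto_log_atTop.comp Real.tendsto_log_atTop
  have t2 : Tendsto (fun x : ℝ => Real.log (Real.log (Real.log x))) atTop atTop :=
    Real.tendsto_log_atTop.comp t1
  obtain ⟨x₀, hx₀⟩ := eventually_atTop.1 ((eventually_ge_atTop (16 : ℝ)).and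
    ((t1.eventually_ge_atTop (max (max (H₁ : ℝ) H₂) 2)).and
    (t2.eventually_ge_atTop (max (Real.log (2 * C)) 1))))
  refine ⟨B, x₀, fun x hx H k hH hk hkl => ?_⟩
  obtain ⟨h16, hL1, hLL⟩ := hx₀ x hx
  obtain ⟨L, hLd⟩ : ∃ L, L = Real.log (Real.log x) := ⟨_, rfl⟩
  rw [← hLd] at hL1 hLL hH
  have hL2 : 2 ≤ L := (le_max_right _ _).trans hL1
  have hLH : max (H₁ : ℝ) H₂ ≤ L := (le_max_left _ _).trans hL1
  have hLpow : L ≤ L ^ B := by
    calc L = L ^ 1 := (pow_one L).symm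
      _ ≤ L ^ B := pow_le_pow_right₀ (by linarith) hB1
  have hHL : L ≤ (H : ℝ) := by
    have := Real.add_one_le_exp (L ^ B)
    linarith
  have hH1 : H₁ ≤ H := by exact_mod_cast ((le_max_left _ _).trans hLH).trans hHL
  have hH2 : H₂ ≤ H := by exact_mod_cast ((le_max_right _ _).trans hLH).trans hHL
  have hH0 : (0 : ℝ) < H := by linarith
  obtain ⟨ℓ, hℓ⟩ : ∃ ℓ, ℓ = Real.log H := ⟨_, rfl⟩
  have hℓL : L ^ B ≤ ℓ := by
    rw [hℓ, Real.le_log_iff_exp_le hH0]; exact hH
  have hℓ0 : 0 < ℓ := by linarith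
  have hlogℓ : B * Real.log L ≤ Real.log ℓ := by
    have := Real.log_le_log (by positivity) hℓL
    rwa [Real.log_pow] at this
  have hlogL1 : 1 ≤ Real.log L := (le_max_right _ _).trans hLL
  have hlogLC : Real.log (2 * C) ≤ Real.log L := (le_max_left _ _).trans hLL
  refine ⟨hP H k hH1 hk, ?_⟩
  rw [← hℓ] at hkl
  obtain ⟨ρ, hρ⟩ : ∃ ρ, ρ = 2 * C * L ^ 2 / ℓ := ⟨_, rfl⟩
  have hρ0 : 0 < ρ := by rw [hρ]; positivity
  have hx0 : 0 < x := by linarith
  have hA := hL H k hH2 hk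
  rw [← hℓ] at hA
  have hbound : ∀ n : ℕ, 1 ≤ n → (n : ℝ) ≤ x →
      (((pool k H).filter fun a => (n + a).Prime).card : ℝ) ≤ ρ * (pool k H).card := by
    intro n hn hnx
    have h2 := hU x h16 n hn hnx H k (by
      have : (2 : ℝ) ≤ H := by linarith
      exact_mod_cast this)
    rw [← hLd, ← hℓ] at h2
    refine h2.trans ?_
    calc C * L ^ 2 * H / ℓ ^ 2 = ρ * (H / (2 * ℓ)) := by rw [hρ]; field_simp
      _ ≤ ρ * (pool k H).card := mul_le_mul_of_nonneg_left hA hρ0.le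
  have h3 := union (x := x) hx0.le hρ0.le (k := k) (A := pool k H) hbound
  refine h3.trans ?_
  apply mul_le_mul_of_nonneg_right _ (by positivity)
  -- `x ρ ^ k ≤ x ^ (-(ε / 2))`
  have hlx : 0 < Real.log x := Real.log_pos (by linarith)
  have hlogρ : Real.log ρ = Real.log (2 * C) + 2 * Real.log L - Real.log ℓ := by
    rw [hρ, Real.log_div (by positivity) hℓ0.ne', Real.log_mul (by positivity) (by positivity), Real.log_pow]
    norm_num
  have hBL : (16 / ε) * Real.log L ≤ Real.log ℓ := (mul_le_mul_of_nonneg_right hBε (by linarith)).trans hlogℓ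
  have hLε : Real.log L ≤ ε / 16 * Real.log ℓ := by
    have : (16 / ε) * Real.log L * (ε / 16) ≤ Real.log ℓ * (ε / 16) :=
      mul_le_mul_of_nonneg_right hBL (by positivity)
    have h5 : (16 / ε) * Real.log L * (ε / 16) = Real.log L := by field_simp
    linarith
  have hlℓ : 0 < Real.log ℓ := by
    have : 0 < (16 / ε) * Real.log L := by positivity
    linarith
  have hneg : Real.log ρ ≤ -((1 - ε / 4) * Real.log ℓ) := by
    rw [hlogρ]
    nlinarith
  have hfin : Real.log x + k * Real.log ρ ≤ -(ε / 2) * Real.log x := by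
    have h6 : (k : ℝ) * Real.log ρ ≤ k * (-((1 - ε / 4) * Real.log ℓ)) :=
      mul_le_mul_of_nonneg_left hneg (by positivity)
    have h7 : (1 - ε / 4) * ((1 + ε) * Real.log x) ≤ (1 - ε / 4) * (k * Real.log ℓ) :=
      mul_le_mul_of_nonneg_left hkl (by linarith)
    have h8 : (1 + ε / 2) * Real.log x ≤ (1 - ε / 4) * ((1 + ε) * Real.log x) := by
      have : (1 + ε / 2) ≤ (1 - ε / 4) * (1 + ε) := by nlinarith
      nlinarith
    nlinarith
  have h9 : x * ρ ^ k = Real.exp (Real.log x + k * Real.log ρ) := by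
    rw [Real.exp_add, Real.exp_log hx0, mul_comm (k : ℝ), Real.exp_mul, Real.exp_log hρ0, Real.rpow_natCast]
  have h10 : x ^ (-(ε / 2)) = Real.exp (-(ε / 2) * Real.log x) := by
    rw [Real.rpow_def_of_pos hx0, mul_comm]
  rw [h9, h10]
  exact Real.exp_le_exp.2 hfin

theorem exists_set (β δ : ℝ) (hβ : 0 < β) (hβ1 : β ≤ 1) (hδ : 0 < δ) (hδ1 : δ ≤ 1) :
    ∀ᶠ x : ℝ in atTop, ∃ S : Finset ℕ, Admissible S ∧ (∀ a ∈ S, (a : ℝ) ≤ Real.exp (δ * Real.log x ^ β)) ∧
      (S.card : ℝ) ≤ (1 + δ) / β * (Real.log x / Real.log (Real.log x)) ∧ ¬ Hit x S := by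
  classical
  obtain ⟨B, x₀, hm⟩ := main (δ / 4) (by linarith) (by linarith)
  -- asymptotics in `y = log x`
  have a1 : ∀ᶠ y : ℝ in atTop, Real.log y ^ B ≤ δ / 2 * y ^ β := by
    have h := (isLittleO_log_rpow_rpow_atTop (s := β) (B : ℝ) hβ).bound (c := δ / 2) (by positivity)
    filter_upwards [h, eventually_ge_atTop 1] with y hy h1
    rw [Real.norm_of_nonneg (by have := Real.log_nonneg h1; positivity), Real.norm_of_nonneg (by positivity),
      Real.rpow_natCast] at hy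
    exact hy
  have a2 : ∀ᶠ y : ℝ in atTop, 3 * Real.log y ≤ δ / 2 * y ^ β := by
    have h := (isLittleO_log_rpow_atTop (r := β) hβ).bound (c := δ / 6) (by positivity)
    filter_upwards [h, eventually_ge_atTop 1] with y hy h1
    rw [Real.norm_of_nonneg (Real.log_nonneg h1), Real.norm_of_nonneg (by positivity)] at hy
    linarith
  have a3 : ∀ᶠ y : ℝ in atTop, Real.log y ≤ δ / 2 * y := by
    have h := (isLittleO_log_rpow_atTop (r := 1) one_pos).bound (c := δ / 2) (by positivity)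
    filter_upwards [h, eventually_ge_atTop 1] with y hy h1
    rw [Real.norm_of_nonneg (Real.log_nonneg h1), Real.norm_of_nonneg (by positivity), Real.rpow_one] at hy
    exact hy
  have a4 : ∀ᶠ y : ℝ in atTop, 2 * Real.log 2 / δ ≤ y ^ β := (tendsto_rpow_atTop hβ).eventually_ge_atTop _
  have a5 : ∀ᶠ y : ℝ in atTop, -Real.log (δ / 2) ≤ δ / 8 * β * Real.log y :=
    (Real.tendsto_log_atTop.const_mul_atTop (by positivity)).eventually_ge_atTop _
  have a6 : ∀ᶠ y : ℝ in atTop, (1 + δ) / β ≤ y ^ (1 / 2 : ℝ) :=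
    (tendsto_rpow_atTop (by norm_num)).eventually_ge_atTop _
  have a7 : ∀ᶠ y : ℝ in atTop, 1 ≤ Real.log y := Real.tendsto_log_atTop.eventually_ge_atTop _
  filter_upwards [Real.tendsto_log_atTop.eventually (a1.and (a2.and (a3.and (a4.and (a5.and (a6.and a7)))))),
    Real.tendsto_log_atTop.eventually_ge_atTop 1, eventually_ge_atTop x₀, eventually_gt_atTop (1 : ℝ)]
    with x hx hx1 hx2 hx3
  obtain ⟨b1, b2, b3, b4, b5, b6, b7⟩ := hx
  obtain ⟨y, hy⟩ : ∃ y, y = Real.log x := ⟨_, rfl⟩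
  rw [← hy] at b1 b2 b3 b4 b5 b6 b7 hx1 ⊢
  have hy0 : 0 < y := by linarith
  obtain ⟨L, hL⟩ : ∃ L, L = Real.log y := ⟨_, rfl⟩
  rw [← hL] at b1 b2 b3 b5 b7 ⊢
  have hyβ : 0 < y ^ β := by positivity
  obtain ⟨H, hH⟩ : ∃ H, H = ⌊Real.exp (δ * y ^ β)⌋₊ := ⟨_, rfl⟩
  have hH1 : (H : ℝ) ≤ Real.exp (δ * y ^ β) := by rw [hH]; exact Nat.floor_le (Real.exp_pos _).le
  have hH2 : Real.exp (δ / 2 * y ^ β) ≤ H := by
    have h1 : Real.exp (δ * y ^ β) < H + 1 := by rw [hH]; exact Nat.lt_floor_add_one _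
    have h2 : Real.exp (δ * y ^ β) = Real.exp (δ / 2 * y ^ β) * Real.exp (δ / 2 * y ^ β) := by
      rw [← Real.exp_add]; ring_nf
    have h3 : 2 ≤ Real.exp (δ / 2 * y ^ β) := by
      rw [← Real.log_le_iff_le_exp (by norm_num)]
      rw [div_le_iff₀ hδ] at b4
      linarith
    nlinarith
  have hH0 : (0 : ℝ) < H := (Real.exp_pos _).trans_le hH2
  have hℓ : δ / 2 * y ^ β ≤ Real.log H := by
    rw [Real.le_log_iff_exp_le hH0]; exact hH2
  have hℓ0 : 0 < Real.log H := lt_of_lt_of_le (by positivity) hℓ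
  have hlogℓ : β * (1 - δ / 8) * L ≤ Real.log (Real.log H) := by
    have h1 := Real.log_le_log (by positivity) hℓ
    rw [Real.log_mul (by positivity) (by positivity), Real.log_rpow hy0, ← hL] at h1
    nlinarith
  have hlogℓ0 : 0 < Real.log (Real.log H) := by
    refine lt_of_lt_of_le ?_ hlogℓ
    have : 0 < 1 - δ / 8 := by linarith
    positivity
  obtain ⟨k, hk⟩ : ∃ k, k = ⌈(1 + δ / 4) * y / Real.log (Real.log H)⌉₊ := ⟨_, rfl⟩
  have hk1 : (1 + δ / 4) * y / Real.log (Real.log H) ≤ k := by rw [hk]; exact Nat.le_ceil _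
  have hk2 : (k : ℝ) < (1 + δ / 4) * y / Real.log (Real.log H) + 1 := by
    rw [hk]; exact Nat.ceil_lt_add_one (by positivity)
  have hk3 : (k : ℝ) ≤ (1 + δ) / β * (y / L) := by
    refine hk2.le.trans ?_
    have h1 : (1 + δ / 4) * y / Real.log (Real.log H) ≤ (1 + δ / 4) * y / (β * (1 - δ / 8) * L) := by
      apply div_le_div_of_nonneg_left (by positivity) _ hlogℓ
      have : 0 < 1 - δ / 8 := by linarith
      positivity
    have h2 : (1 + δ / 4) * y / (β * (1 - δ / 8) * L) ≤ (1 + δ / 2) / β * (y / L) := by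
      have h3 : (1 + δ / 4) / (1 - δ / 8) ≤ 1 + δ / 2 := by
        rw [div_le_iff₀ (by linarith)]
        nlinarith
      calc (1 + δ / 4) * y / (β * (1 - δ / 8) * L) = ((1 + δ / 4) / (1 - δ / 8)) * (y / (β * L)) := by
            have : 1 - δ / 8 ≠ 0 := by linarith
            field_simp
        _ ≤ (1 + δ / 2) * (y / (β * L)) := mul_le_mul_of_nonneg_right h3 (by positivity)
        _ = _ := by field_simp
    have h4 : 1 ≤ δ / 2 / β * (y / L) := by
      have h5 : 1 ≤ δ / 2 * (y / L) := by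
        rw [← mul_div_assoc, le_div_iff₀ (by linarith)]
        linarith
      have h6 : δ / 2 * (y / L) ≤ δ / 2 / β * (y / L) := by
        apply mul_le_mul_of_nonneg_right _ (by positivity)
        rw [le_div_iff₀ hβ]
        nlinarith
      linarith
    have h7 : (1 + δ) / β * (y / L) = (1 + δ / 2) / β * (y / L) + δ / 2 / β * (y / L) := by ring
    linarith
  have hk4 : k ^ 2 ≤ H := by
    have h1 : (k : ℝ) ≤ y ^ (1 / 2 : ℝ) * y := by
      refine hk3.trans ?_
      have h2 : y / L ≤ y := div_le_self hy0.le b7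
      exact mul_le_mul b6 h2 (by positivity) (by positivity)
    have h2 : (k : ℝ) ^ 2 ≤ y ^ 3 := by
      calc (k : ℝ) ^ 2 ≤ (y ^ (1 / 2 : ℝ) * y) ^ 2 := pow_le_pow_left₀ (by positivity) h1 2
        _ = (y ^ (1 / 2 : ℝ)) ^ 2 * y ^ 2 := by ring
        _ = y * y ^ 2 := by
            rw [← Real.sqrt_eq_rpow, Real.sq_sqrt hy0.le]
        _ = y ^ 3 := by ring
    have h3 : y ^ 3 ≤ (H : ℝ) := by
      refine le_trans ?_ hH2
      rw [← Real.log_le_iff_le_exp (by positivity), Real.log_pow, ← hL]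
      push_cast
      linarith
    exact_mod_cast h2.trans h3
  have hmain := hm x hx2 H k (by
    rw [← hy, ← hL]
    refine le_trans (Real.exp_le_exp.2 ?_) hH2
    exact b1) hk4 (by
    rw [← hy]
    rw [div_le_iff₀ hlogℓ0] at hk1
    linarith)
  obtain ⟨hcard, hf⟩ := hmain
  have hpos : 0 < ((pool k H).powersetCard k).card := by
    rw [card_powersetCard]
    exact Nat.choose_pos hcard
  have hlt : (((pool k H).powersetCard k).filter (Hit x)).card < ((pool k H).powersetCard k).card := by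
    have h1 : x ^ (-(δ / 4 / 2)) < 1 := Real.rpow_lt_one_of_one_lt_of_neg hx3 (by linarith)
    have h2 : (0 : ℝ) < ((pool k H).powersetCard k).card := by exact_mod_cast hpos
    have h3 : ((((pool k H).powersetCard k).filter (Hit x)).card : ℝ) < ((pool k H).powersetCard k).card := by
      refine hf.trans_lt ?_
      nlinarith
    exact_mod_cast h3
  obtain ⟨S, hS, hS2⟩ : ∃ S ∈ (pool k H).powersetCard k, ¬ Hit x S := by
    by_contra hne
    push Not at hne
    have : ((pool k H).powersetCard k).filter (Hit x) = (pool k H).powersetCard k :=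
      Finset.filter_true_of_mem hne
    rw [this] at hlt
    exact lt_irrefl _ hlt
  rw [mem_powersetCard] at hS
  refine ⟨S, adm hS.1 hS.2.le, fun a ha => ?_, ?_, hS2⟩
  · have h1 := hS.1 ha
    unfold pool at h1
    rw [mem_filter, mem_Ioc] at h1
    refine le_trans ?_ hH1
    exact_mod_cast h1.1.2
  · rw [hS.2]; exact hk3

end Pool.Agent.X29.UT
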