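import Mathlib
import Pool.Agent.X29.UT.Fin

set_option autoImplicit false

namespace Pool.Agent.X29.UT

open Finset Filter

/-- some `1 ≤ n ≤ x` makes at least `m` of the `n + a` prime -/
def Rich (x : ℝ) (m : ℕ) (S : Finset ℕ) : Prop :=
  ∃ n : ℕ, 1 ≤ n ∧ (n : ℝ) ≤ x ∧ m ≤ (S.filter fun a => (n + a).Prime).card

/-- `C(k, m) ≤ (e k / m) ^ m` -/
theorem choose_exp {k m : ℕ} (hm : 1 ≤ m) : (k.choose m : ℝ) ≤ (Real.exp 1 * k / m) ^ m := by
  have h1 : (k.choose m : ℝ) ≤ (k : ℝ) ^ m / (m.factorial : ℝ) := Nat.choose_le_pow_div m k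
  have h2 : (m : ℝ) ^ m / (m.factorial : ℝ) ≤ Real.exp m := Real.pow_div_factorial_le_exp (m : ℝ) (by positivity) m
  have hm0 : (0 : ℝ) < m := by exact_mod_cast hm
  have hf : (0 : ℝ) < m.factorial := by exact_mod_cast Nat.factorial_pos m
  refine h1.trans ?_
  rw [div_pow, mul_pow, ← Real.exp_nat_mul, mul_one, div_le_div_iff₀ hf (by positivity)]
  rw [div_le_iff₀ hf] at h2
  calc (k : ℝ) ^ m * (m : ℝ) ^ m ≤ (k : ℝ) ^ m * (Real.exp m * m.factorial) :=
        mul_le_mul_of_nonneg_left h2 (by positivity)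
    _ = _ := by ring

/-- the `k`-subsets of `A` with at least `m` elements in `M` -/
theorem count_rich {A M : Finset ℕ} (hM : M ⊆ A) (k m : ℕ) :
    ((A.powersetCard k).filter fun S => m ≤ (S ∩ M).card).card ≤
      M.card.choose m * (A.card - m).choose (k - m) := by
  classical
  have h1 : (A.powersetCard k).filter (fun S => m ≤ (S ∩ M).card) ⊆
      (M.powersetCard m).biUnion fun T => ((A \ T).powersetCard (k - m)).image fun U => T ∪ U := by
    intro S hS
    rw [mem_filter, mem_powersetCard] at hS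
    obtain ⟨⟨h1, h2⟩, h3⟩ := hS
    obtain ⟨T, hT1, hT2⟩ := Finset.exists_subset_card_eq h3
    have hTM : T ⊆ M := hT1.trans inter_subset_right
    have hTS : T ⊆ S := hT1.trans inter_subset_left
    rw [mem_biUnion]
    refine ⟨T, mem_powersetCard.2 ⟨hTM, hT2⟩, ?_⟩
    rw [mem_image]
    refine ⟨S \ T, ?_, ?_⟩
    · rw [mem_powersetCard]
      refine ⟨Finset.sdiff_subset_sdiff h1 (Finset.Subset.refl _), ?_⟩
      rw [Finset.card_sdiff_of_subset hTS, h2, hT2]
    · exact Finset.union_sdiff_of_subset hTS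
  refine (Finset.card_le_card h1).trans (Finset.card_biUnion_le.trans ?_)
  have h2 : ∀ T ∈ M.powersetCard m, (((A \ T).powersetCard (k - m)).image fun U => T ∪ U).card ≤
      (A.card - m).choose (k - m) := by
    intro T hT
    rw [mem_powersetCard] at hT
    refine Finset.card_image_le.trans ?_
    rw [card_powersetCard, Finset.card_sdiff_of_subset (hT.1.trans hM), hT.2]
  refine (Finset.sum_le_sum h2).trans ?_
  rw [Finset.sum_const, smul_eq_mul, card_powersetCard]

open Classical in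
theorem union2 {x ρ : ℝ} (hx : 0 ≤ x) (hρ : 0 ≤ ρ) {k m : ℕ} (hm : 1 ≤ m) {A : Finset ℕ} (hkA : k ≤ A.card)
    (h : ∀ n : ℕ, 1 ≤ n → (n : ℝ) ≤ x → ((A.filter fun a => (n + a).Prime).card : ℝ) ≤ ρ * A.card) :
    (((A.powersetCard k).filter (Rich x m)).card : ℝ) ≤
      x * (Real.exp 1 * k * ρ / m) ^ m * (A.powersetCard k).card := by
  have hm0 : (0 : ℝ) < m := by exact_mod_cast hm
  rcases Nat.lt_or_ge k m with hkm | hmk
  · have h0 : (A.powersetCard k).filter (Rich x m) = ∅ := by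
      apply Finset.filter_eq_empty_iff.2
      rintro S hS ⟨n, _, _, hn⟩
      rw [mem_powersetCard] at hS
      have := Finset.card_filter_le S (fun a => (n + a).Prime)
      omega
    rw [h0]
    simp only [card_empty, Nat.cast_zero]
    positivity
  have h1 : (A.powersetCard k).filter (Rich x m) ⊆
      (Icc 1 ⌊x⌋₊).biUnion fun n => (A.powersetCard k).filter fun S =>
        m ≤ (S ∩ (A.filter fun a => (n + a).Prime)).card := by
    intro S hS
    rw [mem_filter] at hS
    obtain ⟨h1, n, hn1, hnx, hn⟩ := hS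
    rw [mem_biUnion]
    refine ⟨n, ?_, ?_⟩
    · rw [mem_Icc]; exact ⟨hn1, Nat.le_floor hnx⟩
    · rw [mem_filter]
      refine ⟨h1, hn.trans (Finset.card_le_card ?_)⟩
      rw [mem_powersetCard] at h1
      intro a ha
      rw [mem_filter] at ha
      rw [mem_inter, mem_filter]
      exact ⟨ha.1, h1.1 ha.1, ha.2⟩
  have h2 : (((A.powersetCard k).filter (Rich x m)).card : ℝ) ≤
      ∑ n ∈ Icc 1 ⌊x⌋₊, (((A.powersetCard k).filter fun S =>
        m ≤ (S ∩ (A.filter fun a => (n + a).Prime)).card).card : ℝ) := by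
    exact_mod_cast (Finset.card_le_card h1).trans Finset.card_biUnion_le
  refine h2.trans ?_
  have h3 : ∀ n ∈ Icc 1 ⌊x⌋₊, (((A.powersetCard k).filter fun S =>
        m ≤ (S ∩ (A.filter fun a => (n + a).Prime)).card).card : ℝ) ≤
      (Real.exp 1 * k * ρ / m) ^ m * (A.powersetCard k).card := by
    intro n hn
    rw [mem_Icc] at hn
    have hnx : (n : ℝ) ≤ x := (Nat.le_floor_iff hx).1 hn.2
    have h4 := h n hn.1 hnx
    have h5 := count_rich (A := A) (M := A.filter fun a => (n + a).Prime) (Finset.filter_subset _ _) k m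
    obtain ⟨M, hM⟩ : ∃ M, M = (A.filter fun a => (n + a).Prime).card := ⟨_, rfl⟩
    rw [← hM] at h4 h5
    have hMA : M ≤ A.card := by rw [hM]; exact Finset.card_filter_le _ _
    have hA' : 0 < A.card := by omega
    have hA0 : (0 : ℝ) < A.card := by exact_mod_cast hA'
    -- `C(M, m) ≤ ρ ^ m C(A, m)`
    have h6 : (M.choose m : ℝ) ≤ ρ ^ m * A.card.choose m := by
      have h5' : (M.choose m : ℝ) * (A.card : ℝ) ^ m ≤ A.card.choose m * (M : ℝ) ^ m := by
        exact_mod_cast choose_le hMA m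
      have h6 : (M : ℝ) ^ m ≤ (ρ * A.card) ^ m := pow_le_pow_left₀ (by positivity) h4 m
      have h7 : (M.choose m : ℝ) * (A.card : ℝ) ^ m ≤ (ρ ^ m * A.card.choose m) * (A.card : ℝ) ^ m := by
        calc (M.choose m : ℝ) * (A.card : ℝ) ^ m ≤ A.card.choose m * (M : ℝ) ^ m := h5'
          _ ≤ A.card.choose m * (ρ * A.card) ^ m := mul_le_mul_of_nonneg_left h6 (by positivity)
          _ = _ := by rw [mul_pow]; ring
      exact le_of_mul_le_mul_right h7 (by positivity)
    have h7 : (A.card.choose m : ℝ) * (A.card - m).choose (k - m) = A.card.choose k * k.choose m := by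
      exact_mod_cast (Nat.choose_mul (n := A.card) (k := k) (s := m) hmk).symm
    calc (((A.powersetCard k).filter fun S =>
          m ≤ (S ∩ (A.filter fun a => (n + a).Prime)).card).card : ℝ)
        ≤ (M.choose m : ℝ) * ((A.card - m).choose (k - m) : ℝ) := by exact_mod_cast h5
      _ ≤ (ρ ^ m * A.card.choose m) * ((A.card - m).choose (k - m) : ℝ) :=
          mul_le_mul_of_nonneg_right h6 (by positivity)
      _ = ρ ^ m * (A.card.choose k * k.choose m) := by rw [← h7]; ring
      _ ≤ ρ ^ m * (A.card.choose k * (Real.exp 1 * k / m) ^ m) := by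
          apply mul_le_mul_of_nonneg_left _ (by positivity)
          exact mul_le_mul_of_nonneg_left (choose_exp hm) (by positivity)
      _ = _ := by
          rw [card_powersetCard]
          have : Real.exp 1 * k * ρ / m = ρ * (Real.exp 1 * k / m) := by ring
          rw [this, mul_pow]; ring
  refine (Finset.sum_le_sum h3).trans ?_
  rw [Finset.sum_const, nsmul_eq_mul, Nat.card_Icc, Nat.add_sub_cancel, mul_assoc x]
  apply mul_le_mul_of_nonneg_right (Nat.floor_le hx) (by positivity)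

open Classical in
theorem main2 (ε : ℝ) (h0 : 0 < ε) (h1 : ε ≤ 1) : ∃ (B : ℕ) (x₀ : ℝ), ∀ x : ℝ, x₀ ≤ x → ∀ H k m : ℕ,
    Real.exp (Real.log (Real.log x) ^ B) ≤ H → (H : ℝ) ≤ x → (k : ℝ) ≤ Real.log H ^ (1 + ε / 8) →
    (1 + ε) * Real.log x ≤ m * Real.log (Real.log H) →
    k ≤ (pool k H).card ∧ (((pool k H).powersetCard k).filter (Rich x m)).card ≤
      x ^ (-(ε / 2)) * ((pool k H).powersetCard k).card := by
  obtain ⟨H₁, hP⟩ := pool_ge
  obtain ⟨H₂, hL⟩ := pool_lower
  obtain ⟨C, hC, hU⟩ := pairs_upper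
  obtain ⟨B, hB⟩ : ∃ B, B = ⌈64 / ε⌉₊ + 1 := ⟨_, rfl⟩
  have hBε : 64 / ε ≤ (B : ℝ) := by
    rw [hB]; push_cast
    have := Nat.le_ceil (64 / ε)
    linarith
  have hB1 : 1 ≤ B := by omega
  -- eventually
  have t1 : Tendsto (fun x : ℝ => Real.log (Real.log x)) atTop atTop :=
    Real.tendsto_log_atTop.comp Real.tendsto_log_atTop
  have t2 : Tendsto (fun x : ℝ => Real.log (Real.log (Real.log x))) atTop atTop :=
    Real.tendsto_log_atTop.comp t1
  have e1 : ∀ᶠ t : ℝ in atTop, 3 * Real.log t ≤ t := by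
    have := (isLittleO_log_rpow_atTop (r := 1) one_pos).bound (c := 1 / 3) (by norm_num)
    filter_upwards [this, eventually_ge_atTop 1] with t ht h1
    rw [Real.norm_of_nonneg (Real.log_nonneg h1), Real.norm_of_nonneg (by positivity), Real.rpow_one] at ht
    linarith
  have e2 : ∀ᶠ t : ℝ in atTop, Real.log t ≤ ε / 16 * t := by
    have := (isLittleO_log_rpow_atTop (r := 1) one_pos).bound (c := ε / 16) (by positivity)
    filter_upwards [this, eventually_ge_atTop 1] with t ht h1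
    rw [Real.norm_of_nonneg (Real.log_nonneg h1), Real.norm_of_nonneg (by positivity), Real.rpow_one] at ht
    linarith
  have e3 : ∀ᶠ t : ℝ in atTop, Real.log (Real.log t) ≤ ε / 16 * Real.log t :=
    Real.tendsto_log_atTop.eventually e2
  obtain ⟨T, hT⟩ := eventually_atTop.1 (e1.and e3)
  obtain ⟨x₀, hx₀⟩ := eventually_atTop.1 ((eventually_ge_atTop (16 : ℝ)).and
    ((t1.eventually_ge_atTop (max (max (H₁ : ℝ) H₂) (max T 2))).and
    (t2.eventually_ge_atTop (max (Real.log (2 * C)) 1))))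
  refine ⟨B, x₀, fun x hx H k m hH hHx hk hml => ?_⟩
  obtain ⟨h16, hL1, hLL⟩ := hx₀ x hx
  obtain ⟨L, hLd⟩ : ∃ L, L = Real.log (Real.log x) := ⟨_, rfl⟩
  rw [← hLd] at hL1 hLL hH
  have hL2 : 2 ≤ L := ((le_max_right _ _).trans (le_max_right _ _)).trans hL1
  have hLT : T ≤ L := ((le_max_left _ _).trans (le_max_right _ _)).trans hL1
  have hLH : max (H₁ : ℝ) H₂ ≤ L := (le_max_left _ _).trans hL1
  have hLpow : L ≤ L ^ B := by
    calc L = L ^ 1 := (pow_one L).symm
      _ ≤ L ^ B := pow_le_pow_right₀ (by linarith) hB1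
  have hHL : L ≤ (H : ℝ) := by
    have := Real.add_one_le_exp (L ^ B)
    linarith
  have hH1 : H₁ ≤ H := by exact_mod_cast ((le_max_left _ _).trans hLH).trans hHL
  have hH2 : H₂ ≤ H := by exact_mod_cast ((le_max_right _ _).trans hLH).trans hHL
  have hH0 : (0 : ℝ) < H := by linarith
  have hx0 : 0 < x := by linarith
  have hlx : 0 < Real.log x := Real.log_pos (by linarith)
  have hℓx : Real.log H ≤ Real.log x := Real.log_le_log hH0 hHx
  obtain ⟨ℓ, hℓ⟩ : ∃ ℓ, ℓ = Real.log H := ⟨_, rfl⟩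
  have hℓL : L ^ B ≤ ℓ := by
    rw [hℓ, Real.le_log_iff_exp_le hH0]; exact hH
  have hℓ0 : 0 < ℓ := by linarith
  have hℓ2 : 2 ≤ ℓ := by linarith
  rw [← hℓ] at hk hℓx
  obtain ⟨g1, g2⟩ := hT ℓ (by linarith)
  have hlogℓ : B * Real.log L ≤ Real.log ℓ := by
    have := Real.log_le_log (by positivity) hℓL
    rwa [Real.log_pow] at this
  have hlogL1 : 1 ≤ Real.log L := (le_max_right _ _).trans hLL
  have hlogLC : Real.log (2 * C) ≤ Real.log L := (le_max_left _ _).trans hLL
  have hBL : (64 / ε) * Real.log L ≤ Real.log ℓ := (mul_le_mul_of_nonneg_right hBε (by linarith)).trans hlogℓ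
  have hLε : Real.log L ≤ ε / 64 * Real.log ℓ := by
    have : (64 / ε) * Real.log L * (ε / 64) ≤ Real.log ℓ * (ε / 64) :=
      mul_le_mul_of_nonneg_right hBL (by positivity)
    have h5 : (64 / ε) * Real.log L * (ε / 64) = Real.log L := by field_simp
    linarith
  have hlℓ : 0 < Real.log ℓ := by
    have : 0 < (64 / ε) * Real.log L := by positivity
    linarith
  have hk2 : k ^ 2 ≤ H := by
    have h2 : (k : ℝ) ^ 2 ≤ ℓ ^ (3 : ℝ) := by
      calc (k : ℝ) ^ 2 ≤ (ℓ ^ (1 + ε / 8)) ^ 2 := pow_le_pow_left₀ (by positivity) hk 2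
        _ = ℓ ^ ((1 + ε / 8) * 2) := by rw [Real.rpow_mul hℓ0.le]; norm_num
        _ ≤ ℓ ^ (3 : ℝ) := Real.rpow_le_rpow_of_exponent_le (by linarith) (by linarith)
    have h3 : ℓ ^ (3 : ℝ) ≤ (H : ℝ) := by
      rw [Real.rpow_def_of_pos hℓ0]
      have h4 : (H : ℝ) = Real.exp ℓ := by rw [hℓ, Real.exp_log hH0]
      rw [h4]
      apply Real.exp_le_exp.2
      linarith
    exact_mod_cast h2.trans h3
  have hkA := hP H k hH1 hk2
  refine ⟨hkA, ?_⟩
  rw [← hℓ] at hml
  have hm0 : (0 : ℝ) < m := by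
    by_contra hne
    push Not at hne
    have : (m : ℝ) = 0 := le_antisymm hne (by positivity)
    rw [this] at hml
    nlinarith
  have hm1 : 1 ≤ m := by exact_mod_cast hm0
  obtain ⟨ρ, hρ⟩ : ∃ ρ, ρ = 2 * C * L ^ 2 / ℓ := ⟨_, rfl⟩
  have hρ0 : 0 < ρ := by rw [hρ]; positivity
  have hA := hL H k hH2 hk2
  rw [← hℓ] at hA
  have hbound : ∀ n : ℕ, 1 ≤ n → (n : ℝ) ≤ x →
      (((pool k H).filter fun a => (n + a).Prime).card : ℝ) ≤ ρ * (pool k H).card := by
    intro n hn hnx
    have h2 := hU x h16 n hn hnx H k (by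
      have : (2 : ℝ) ≤ H := by linarith
      exact_mod_cast this)
    rw [← hLd, ← hℓ] at h2
    refine h2.trans ?_
    calc C * L ^ 2 * H / ℓ ^ 2 = ρ * (H / (2 * ℓ)) := by rw [hρ]; field_simp
      _ ≤ ρ * (pool k H).card := mul_le_mul_of_nonneg_left hA hρ0.le
  have h3 := union2 (x := x) hx0.le hρ0.le (k := k) (m := m) hm1 (A := pool k H) hkA hbound
  refine h3.trans ?_
  apply mul_le_mul_of_nonneg_right _ (by positivity)
  rcases Nat.eq_zero_or_pos k with hk0 | hk0
  · rw [hk0]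
    simp only [Nat.cast_zero, mul_zero, zero_mul, zero_div]
    rw [zero_pow (by omega), mul_zero]
    positivity
  have hk0' : (0 : ℝ) < k := by exact_mod_cast hk0
  have hlogk : Real.log k ≤ (1 + ε / 8) * Real.log ℓ := by
    have := Real.log_le_log hk0' hk
    rwa [Real.log_rpow hℓ0] at this
  have hlogρ : Real.log ρ = Real.log (2 * C) + 2 * Real.log L - Real.log ℓ := by
    rw [hρ, Real.log_div (by positivity) hℓ0.ne', Real.log_mul (by positivity) (by positivity), Real.log_pow]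
    norm_num
  have hlogm : Real.log ℓ - Real.log (Real.log ℓ) ≤ Real.log m := by
    rw [← Real.log_div hℓ0.ne' hlℓ.ne']
    apply Real.log_le_log (by positivity)
    rw [div_le_iff₀ hlℓ]
    nlinarith
  have hlogQ : Real.log (Real.exp 1 * k * ρ / m) = 1 + Real.log k + Real.log ρ - Real.log m := by
    rw [Real.log_div (by positivity) hm0.ne', Real.log_mul (by positivity) hρ0.ne',
      Real.log_mul (by positivity) hk0'.ne', Real.log_exp]
  have hneg : Real.log (Real.exp 1 * k * ρ / m) ≤ -((1 - ε / 4) * Real.log ℓ) := by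
    rw [hlogQ, hlogρ]
    nlinarith
  have hfin : Real.log x + m * Real.log (Real.exp 1 * k * ρ / m) ≤ -(ε / 2) * Real.log x := by
    have h6 : (m : ℝ) * Real.log (Real.exp 1 * k * ρ / m) ≤ m * (-((1 - ε / 4) * Real.log ℓ)) :=
      mul_le_mul_of_nonneg_left hneg (by positivity)
    have h7 : (1 - ε / 4) * ((1 + ε) * Real.log x) ≤ (1 - ε / 4) * (m * Real.log ℓ) :=
      mul_le_mul_of_nonneg_left hml (by linarith)
    have h8 : (1 + ε / 2) * Real.log x ≤ (1 - ε / 4) * ((1 + ε) * Real.log x) := by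
      have : (1 + ε / 2) ≤ (1 - ε / 4) * (1 + ε) := by nlinarith
      nlinarith
    nlinarith
  have hQ0 : 0 < Real.exp 1 * k * ρ / m := by positivity
  have h9 : x * (Real.exp 1 * k * ρ / m) ^ m = Real.exp (Real.log x + m * Real.log (Real.exp 1 * k * ρ / m)) := by
    rw [Real.exp_add, Real.exp_log hx0, mul_comm (m : ℝ), Real.exp_mul, Real.exp_log hQ0, Real.rpow_natCast]
  have h10 : x ^ (-(ε / 2)) = Real.exp (-(ε / 2) * Real.log x) := by
    rw [Real.rpow_def_of_pos hx0, mul_comm]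
  rw [h9, h10]
  exact Real.exp_le_exp.2 hfin

end Pool.Agent.X29.UT
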